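import Pool.Agent.Q20.PowCom.Proof

/-!
If the power graph of a finite group `G₁` is isomorphic to the commuting graph of a finite
group `G₂`, then the power graph and the commuting graph of `G₁` coincide.
-/

namespace Pool.Agent.Results.MP_2b7cf0_al.PowIsoComForcesEq

open Q20.PowCom

/-- **Negative answer to Q1.**  For finite groups `G₁`, `G₂`, if the power graph of `G₁` is
isomorphic to the commuting graph of `G₂`, then the power graph of `G₁` equals the
commuting graph of `G₁`. -/
theorem result {G₁ G₂ : Type*} [Group G₁] [Group G₂] [Finite G₁] [Finite G₂]
    (h : Nonempty (powerGraph G₁ ≃g commutingGraph G₂)) :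
    powerGraph G₁ = commutingGraph G₁ :=
  main h

end Pool.Agent.Results.MP_2b7cf0_al.PowIsoComForcesEq
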